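import Mathlib
import Pool.Agent.Lib.helper22.DG
import Pool.Agent.H.MP_8a4945_al.F
import Pool.Agent.H.MP_5cc51b_al.B

namespace Pool.Agent.Results.MP_5cc51b_al.Yes

open CategoryTheory Pool.Agent.Lib.DG Pool.Agent.H.MP_8a4945_al

variable {S : Type} {R : Set (List S × List S)}

/-- the morphism is represented by an edge path (derivation) with `n` edges (cells) -/
inductive Len (p : W R) : ℕ → ∀ q : W R, (ob R p ⟶ ob R q) → Prop
  | nil : Len p 0 p (𝟙 _)
  | pos {n q s f} (e : q ⟶ s) : Len p n q f → Len p (n + 1) s (f ≫ ed e)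
  | neg {n q s f} (e : s ⟶ q) : Len p n q f → Len p (n + 1) s (f ≫ inv (ed e))

/-- diagram length -/
noncomputable def diagLen {w : List S} (g : D R w) : ℕ := sInf {n | Len ⟨w⟩ n ⟨w⟩ g}

/-- word length -/
noncomputable def wordLen {G : Type} [Group G] (A : Set G) (g : G) : ℕ :=
  sInf {n | ∃ l : List G, l.length = n ∧ (∀ x ∈ l, x ∈ A ∨ x⁻¹ ∈ A) ∧ l.prod = g}

theorem len_iff (hR : ∀ r ∈ R, r.1 ≠ [] ∧ r.2 ≠ []) (w : List S) (n : ℕ) (t : TT R w) :
    Len ⟨w⟩ n t.1 t.2 ↔ (sys hR w).Pth n t ⟨⟨w⟩, 𝟙 _⟩ := by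
  obtain ⟨q, f⟩ := t
  refine ⟨fun h => ?_, fun h => ?_⟩
  · replace h : Len ⟨w⟩ n q f := h
    induction h with
    | nil => exact .z _
    | pos e _ ih => exact .s (d := false) ⟨e, rfl, rfl⟩ ih
    | neg e _ ih => exact .s (d := true) ⟨e, rfl, by simp⟩ ih
  · generalize (⟨q, f⟩ : TT R w) = t at h ⊢
    generalize e : (⟨⟨w⟩, 𝟙 _⟩ : TT R w) = o at h
    induction h with
    | z => exact e ▸ .nil
    | @s n t t' u a r d b i _ ih =>
      cases d <;> obtain ⟨e', -, i⟩ := i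
      · exact i ▸ .pos e' (ih e)
      · have := Len.neg e' (ih e)
        simpa [i] using this

theorem result (S : Type) (R : Set (List S × List S)) (hR : ∀ r ∈ R, r.1 ≠ [] ∧ r.2 ≠ []) (w : List S)
    (A : Set (D R w)) (hA : A.Finite) (hgen : Subgroup.closure A = ⊤) :
    ∃ C : ℕ, 1 ≤ C ∧ ∀ g : D R w, wordLen A g ≤ C * diagLen g ∧ diagLen g ≤ C * wordLen A g := by
  let X := sys hR w
  let o : TT R w := ⟨⟨w⟩, 𝟙 _⟩
  have e : ∀ g : D R w, diagLen g = X.di (g⁻¹ • o) o := fun g => congrArg sInf (Set.ext fun n => by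
    have : g⁻¹ • o = ⟨⟨w⟩, g⟩ := congrArg (Sigma.mk _) ((congrArg (fun x : D R w => x ≫ 𝟙 _) (inv_inv g)).trans (Category.comp_id _))
    rw [this]
    exact len_iff hR w n ⟨⟨w⟩, g⟩)
  obtain ⟨N, hN⟩ := X.chart o
  have sy : ∀ g : D R w, diagLen g = X.di (g • o) o := fun g => by
    rw [e, ← X.di_act g, smul_inv_smul, hN.di_eq, hN.di_eq, dl_comm]
  have ex : ∀ g : D R w, ∃ l : List (D R w), l.length = wordLen A g ∧ (∀ x ∈ l, x ∈ A ∨ x⁻¹ ∈ A) ∧ l.prod = g := fun g => by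
    obtain ⟨l, h⟩ := Submonoid.exists_list_of_mem_closure (s := A ∪ A⁻¹) (x := g) (by
      rw [← Subgroup.closure_toSubmonoid, hgen]; trivial)
    exact Nat.sInf_mem (s := {n | ∃ l : List (D R w), l.length = n ∧ (∀ x ∈ l, x ∈ A ∨ x⁻¹ ∈ A) ∧ l.prod = g}) ⟨_, l, rfl, h⟩
  obtain ⟨K, hK⟩ := X.upper o hA hgen (ℓ := wordLen A) fun g h => by
    obtain ⟨l, a, b, c⟩ := ex g
    obtain ⟨l', a', b', c'⟩ := ex h
    exact Nat.sInf_le ⟨l ++ l', by simp [a, a'], fun x i => (List.mem_append.1 i).elim (b x) (b' x), by simp [c, c']⟩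
  obtain ⟨M, hM⟩ := fin_bd hA (fun a m => diagLen a ≤ m) fun a => ⟨_, fun _ => id⟩
  have tr : ∀ g h : D R w, diagLen (g * h) ≤ diagLen g + diagLen h := fun g h => by
    rw [sy, sy, sy h, ← X.di_act g (h • o), ← mul_smul, hN.di_eq, hN.di_eq, hN.di_eq, add_comm]
    exact (Set.ncard_le_ncard (symmDiff_triangle _ (cells (N (g • o))) _) ((hN.dl_fin ..).union (hN.dl_fin ..))).trans (Set.ncard_union_le ..)
  refine ⟨2 * K + M + 1, by omega, fun g => ⟨?_, ?_⟩⟩
  · by_cases z : diagLen g = 0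
    · rw [sy, hN.di_base, Set.ncard_eq_zero (hN.inv _).fin] at z
      rw [X.free g o (hN.inj (z.trans hN.cells_base.symm))]
      exact (show wordLen A 1 ≤ 0 from Nat.sInf_le ⟨[], rfl, by simp, rfl⟩).trans (Nat.zero_le _)
    · have := hK g
      rw [← sy] at this
      nlinarith [Nat.pos_of_ne_zero z]
  · obtain ⟨l, a, b, rfl⟩ := ex g
    rw [← a]
    clear a
    induction l with
    | nil => rw [List.prod_nil, sy, one_smul, hN.di_base, hN.cells_base]; simp
    | cons x l ih =>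
      have := ih fun y i => b y (.tail _ i)
      have := tr x l.prod
      have : diagLen x ≤ M := (b x (.head _)).elim (fun i => hM x i M le_rfl) fun i => by
        rw [e, ← sy]; exact hM _ i M le_rfl
      simp only [List.prod_cons, List.length_cons]
      nlinarith

end Pool.Agent.Results.MP_5cc51b_al.Yes
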